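import Mathlib
import Pool.Agent.U570.GL.Main

/-!
# Symmetric and general convex sets in the Gaussian lattice covering bound

For a closed convex set `V ⊆ ℝⁿ` with nonempty interior let `α(B₂ⁿ, V)` be the supremum over all `n`-lattices `L` of
`μ(L, V) / λₙ(L, B₂ⁿ)`, and let `g_α(n, p)` and `g_α^{ns}(n, p)` be the suprema of `α(B₂ⁿ, V)` over the symmetric,
respectively over all such sets `V` of Gaussian measure `p`. We prove `g_α(n, p) = g_α^{ns}(n, p)` for all `n ≥ 1` and
`0 < p < 1`; moreover both are equal to the supremum of the covering radius `μ(ℤⁿ, V)` of the integer lattice over the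
unconditional closed convex sets `V` of Gaussian measure `p`.

Proof. Let `q ∉ L + cV`, and let `v₁, …, vₙ ∈ L` be linearly independent of norm at most `r`. After a rotation (Gram and
Schmidt) the `j`-th coordinate of `vᵢ` is `0` for `j > i`, and the `i`-th coordinate has modulus in `(0, r]`. Apply
to the interior of `V` the Steiner symmetrisations in the coordinate directions `1, …, n`, in this order. The
Gaussian measure does not decrease. By induction on `j`, the `j`-th set does not contain any point `x` with
`|xᵢ| ≥ r / (2c)` for `i ≤ j`, which agrees in the coordinates `i > j` with a point of `c⁻¹ (q - L)`: otherwise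
a chord of the previous set in the `j`-th direction is longer than `r / c`, and it contains a point which agrees in the
`j`-th and the later coordinates with a point of `c⁻¹ (q - L)`, because of the integer multiples of `vⱼ`. So the last set,
which is unconditional, contains no point with all coordinates of modulus at least `r / (2c)`. Its closure can be cut
down to Gaussian measure `p` by a coordinate slab, and `(1/2, …, 1/2)` shows that the covering radius of the integer
lattice with respect to the resulting set is at least `c / r`.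
-/

set_option autoImplicit false

namespace Pool.Agent.Results.MP_2cc29a_gt.SymmetricEqualsGeneral

open MeasureTheory ProbabilityTheory Set
open scoped ENNReal Pointwise

/-- Euclidean `n`-space -/
abbrev E (n : ℕ) : Type := EuclideanSpace ℝ (Fin n)

/-- `γₙ`, the standard Gaussian probability measure of Euclidean `n`-space -/
noncomputable def gam (n : ℕ) : Measure (E n) := stdGaussian (E n)

/-- an `n`-lattice: the integer combinations of a basis of `ℝⁿ` -/
def IsLattice {n : ℕ} (L : AddSubgroup (E n)) : Prop :=
  ∃ b : Module.Basis (Fin n) ℝ (E n), L = (Submodule.span ℤ (Set.range b)).toAddSubgroup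

/-- the covering radius `μ(L, V)`: the infimum of the `c > 0` with `L + cV = ℝⁿ` -/
noncomputable def covRadius {n : ℕ} (L : AddSubgroup (E n)) (V : Set (E n)) : ℝ≥0∞ :=
  ⨅ (c : ℝ) (_ : 0 < c) (_ : (L : Set (E n)) + c • V = univ), ENNReal.ofReal c

/-- the last successive minimum `λₙ(L, B₂ⁿ)`: the infimum of the `r > 0` such that `L` has `n`
linearly independent vectors of norm at most `r` -/
noncomputable def lamN {n : ℕ} (L : AddSubgroup (E n)) : ℝ≥0∞ :=
  ⨅ (r : ℝ) (_ : 0 < r)
    (_ : ∃ v : Fin n → E n, LinearIndependent ℝ v ∧ ∀ i, v i ∈ L ∧ ‖v i‖ ≤ r), ENNReal.ofReal r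

/-- `α(B₂ⁿ, V)`: the supremum over all `n`-lattices `L` of `μ(L, V) / λₙ(L, B₂ⁿ)` -/
noncomputable def alpha {n : ℕ} (V : Set (E n)) : ℝ≥0∞ :=
  ⨆ (L : AddSubgroup (E n)) (_ : IsLattice L), covRadius L V / lamN L

/-- the class `𝒦ⁿ` of the closed convex sets with nonempty interior -/
def IsK {n : ℕ} (V : Set (E n)) : Prop := IsClosed V ∧ Convex ℝ V ∧ (interior V).Nonempty

/-- `g_α(n, p)`: the supremum of `α(B₂ⁿ, V)` over the symmetric `V` in `𝒦ⁿ` of Gaussian measure `p` -/
noncomputable def gSym (n : ℕ) (p : ℝ) : ℝ≥0∞ :=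
  ⨆ (V : Set (E n)) (_ : IsK V ∧ V = -V ∧ gam n V = ENNReal.ofReal p), alpha V

/-- `g_α^{ns}(n, p)`: the supremum of `α(B₂ⁿ, V)` over all `V` in `𝒦ⁿ` of Gaussian measure `p` -/
noncomputable def gGen (n : ℕ) (p : ℝ) : ℝ≥0∞ :=
  ⨆ (V : Set (E n)) (_ : IsK V ∧ gam n V = ENNReal.ofReal p), alpha V

/-- the integer lattice `ℤⁿ` -/
def Zn (n : ℕ) : AddSubgroup (E n) where
  carrier := {x | ∀ i, ∃ z : ℤ, x i = z}
  zero_mem' := fun i => ⟨0, by simp⟩
  add_mem' := by
    intro x y hx hy i
    obtain ⟨a, ha⟩ := hx i
    obtain ⟨b, hb⟩ := hy i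
    exact ⟨a + b, by simp [ha, hb]⟩
  neg_mem' := by
    intro x hx i
    obtain ⟨a, ha⟩ := hx i
    exact ⟨-a, by simp [ha]⟩

/-- an unconditional set: invariant under all changes of the signs of the coordinates -/
def Uncond {n : ℕ} (V : Set (E n)) : Prop := ∀ x ∈ V, ∀ y : E n, (∀ i, |y i| = |x i|) → y ∈ V

/-- the supremum of the covering radius `μ(ℤⁿ, V)` of the integer lattice over the unconditional
`V` in `𝒦ⁿ` of Gaussian measure `p` -/
noncomputable def gUnc (n : ℕ) (p : ℝ) : ℝ≥0∞ :=
  ⨆ (V : Set (E n)) (_ : IsK V ∧ Uncond V ∧ gam n V = ENNReal.ofReal p), covRadius (Zn n) V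

/-- **For every `n ≥ 1` and every `p` in `(0, 1)` the symmetric and the general constant agree**,
and they are equal to the supremum of the covering radius of the integer lattice over the
unconditional closed convex sets of Gaussian measure `p`. -/
theorem result : ∀ n : ℕ, 1 ≤ n → ∀ p : ℝ, 0 < p → p < 1 →
    gSym n p = gGen n p ∧ gGen n p = gUnc n p :=
  fun n hn p hp _ => Pool.Agent.U570.GL.main n hn p hp

end Pool.Agent.Results.MP_2cc29a_gt.SymmetricEqualsGeneral
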